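import Pool.Agent.H15.CvxK10
import Pool.Agent.H15.CvxK11
import Pool.Agent.H15.CvxK12

namespace Pool.Agent.Results.MP_8b9f13_co.NotUnimodal

/-- A semilabelled binary tree of size `n`: a finite tree (vertex set `Fin m`) all of whose vertices
have degree 1 or 3, with the degree-one vertices labelled bijectively by `Fin n`. -/
structure PTree (n : ℕ) where
  m : ℕ
  G : SimpleGraph (Fin m)
  tree : G.IsTree
  deg : ∀ v, (G.neighborSet v).ncard = 1 ∨ (G.neighborSet v).ncard = 3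
  lab : Fin n → Fin m
  inj : Function.Injective lab
  leaf : ∀ v, (G.neighborSet v).ncard = 1 ↔ v ∈ Set.range lab

/-- The partition `s` of the labels arises from `T` by deleting a set of edges. -/
def Conv {n : ℕ} (T : PTree n) (s : Setoid (Fin n)) : Prop :=
  ∃ D : Set (Sym2 (Fin T.m)), D ⊆ T.G.edgeSet ∧
    ∀ i j, s i j ↔ (T.G.deleteEdges D).Reachable (T.lab i) (T.lab j)

/-- At least two classes have size at least 2. -/
def NonTrivial {n : ℕ} (s : Setoid (Fin n)) : Prop :=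
  ∃ a b c d, a ≠ b ∧ c ≠ d ∧ s a b ∧ s c d ∧ ¬ s a c

/-- `a_k(T,F)`. -/
noncomputable def seq {n : ℕ} (T F : PTree n) (k : ℕ) : ℕ :=
  {s : Setoid (Fin n) | Conv T s ∧ Conv F s ∧ Nat.card (Quotient s) = k ∧ NonTrivial s}.ncard

def Unimodal (n : ℕ) (a : ℕ → ℕ) : Prop :=
  ∃ m, 1 ≤ m ∧ m ≤ n ∧ (∀ k, 1 ≤ k → k < m → a k ≤ a (k + 1)) ∧ ∀ k, m ≤ k → k < n → a (k + 1) ≤ a k

def LogConcave (n : ℕ) (a : ℕ → ℕ) : Prop :=
  ∀ k, 1 < k → k < n → a (k - 1) * a (k + 1) ≤ a k ^ 2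

open Pool.Agent.H15 CvxA CvxB CvxC CvxD

def g (l : List ℕ) (x : ℕ) : ℕ := l.getD x 0

def dg (p : List ℕ) (v : ℕ) : ℕ :=
  ((Finset.range 30).filter fun u => (v ≠ 0 ∧ g p v = u) ∨ (u ≠ 0 ∧ g p u = v)).card

lemma ncard_eq (p : List ℕ) (h1 : ∀ u, u < 30 → u ≠ 0 → g p u < u) (v : Fin 30) :
    ((gr 30 (g p) h1).neighborSet v).ncard = dg p v := by
  rw [← Set.ncard_image_of_injective _ Fin.val_injective, dg, ← Set.ncard_coe_finset]
  congr 1
  ext u
  simp only [Set.mem_image, SimpleGraph.mem_neighborSet, Finset.coe_filter, Finset.mem_range,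
    Set.mem_setOf_eq]
  constructor
  · rintro ⟨w, hw, rfl⟩; exact ⟨w.2, hw⟩
  · rintro ⟨hu, h⟩; exact ⟨⟨u, hu⟩, h, rfl⟩

def mk (p l a : List ℕ) (h1 : ∀ u, u < 30 → u ≠ 0 → g p u < u)
    (h2 : ∀ u, u < 30 → u ≠ 0 → g a u ^^^ g a (g p u) = 2 ^ u)
    (hl : ∀ x, x < 16 → g l x < 30) (hinj : ∀ x, x < 16 → ∀ y, y < 16 → g l x = g l y → x = y)
    (hd : ∀ v, v < 30 → (dg p v = 1 ∨ dg p v = 3) ∧ (dg p v = 1 ↔ ∃ x, x < 16 ∧ g l x = v)) :
    PTree 16 where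
  m := 30
  G := gr 30 (g p) h1
  tree := isTree h1 h2 (by norm_num)
  deg := fun v => by rw [ncard_eq]; exact (hd v v.2).1
  lab := fun x => ⟨g l x, hl x x.2⟩
  inj := fun x y h => Fin.ext (hinj x x.2 y y.2 (congrArg Fin.val h))
  leaf := fun v => by
    rw [ncard_eq, (hd v v.2).2]
    constructor
    · rintro ⟨x, hx, h⟩; exact ⟨⟨x, hx⟩, Fin.ext h⟩
    · rintro ⟨x, h⟩; exact ⟨x, x.2, congrArg Fin.val h⟩

lemma t1 : ∀ u, u < 30 → u ≠ 0 → g pT u < u := by decide +kernel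
lemma t2 : ∀ u, u < 30 → u ≠ 0 → g aT u ^^^ g aT (g pT u) = 2 ^ u := by decide +kernel
lemma t3 : ∀ x, x < 16 → g lT x < 30 := by decide +kernel
lemma t4 : ∀ x, x < 16 → ∀ y, y < 16 → g lT x = g lT y → x = y := by decide +kernel
lemma t5 : ∀ v, v < 30 → (dg pT v = 1 ∨ dg pT v = 3) ∧ (dg pT v = 1 ↔ ∃ x, x < 16 ∧ g lT x = v) := by
  decide +kernel
lemma f1 : ∀ u, u < 30 → u ≠ 0 → g pF u < u := by decide +kernel
lemma f2 : ∀ u, u < 30 → u ≠ 0 → g aF u ^^^ g aF (g pF u) = 2 ^ u := by decide +kernel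
lemma f3 : ∀ x, x < 16 → g lF x < 30 := by decide +kernel
lemma f4 : ∀ x, x < 16 → ∀ y, y < 16 → g lF x = g lF y → x = y := by decide +kernel
lemma f5 : ∀ v, v < 30 → (dg pF v = 1 ∨ dg pF v = 3) ∧ (dg pF v = 1 ↔ ∃ x, x < 16 ∧ g lF x = v) := by
  decide +kernel

def TT : PTree 16 := mk pT lT aT t1 t2 t3 t4 t5
def FF : PTree 16 := mk pF lF aF f1 f2 f3 f4 f5

set_option synthInstance.maxSize 4000 in
lemma convT (s : Setoid (Fin 16)) : Conv TT s ↔ Good (XT fun x => g aT (g lT x)) s :=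
  conv_iff t1 t2 (by norm_num) (g lT) t3 t4 (by decide +kernel) (by decide +kernel) s

set_option synthInstance.maxSize 4000 in
lemma convF (s : Setoid (Fin 16)) : Conv FF s ↔ Good (XT fun x => g aF (g lF x)) s :=
  conv_iff f1 f2 (by norm_num) (g lF) f3 f4 (by decide +kernel) (by decide +kernel) s

def cT (x : ℕ) : ℕ := g aT (g lT x)
def cF (x : ℕ) : ℕ := g aF (g lF x)
def XX (x y z w : ℕ) : Prop := XT cT x y z w ∨ XT cF x y z w
def RF (i j : ℕ) : ℕ := (RR.getD i []).getD j 0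

set_option synthInstance.maxSize 4000 in
lemma hR0 : ∀ i, i < 16 → ∀ j, j < i → ∀ x, x < i → ∀ y, y < x →
    ((RF i j).testBit (16 * x + y) = true ↔ (j = x ∨ (j ≠ y ∧
      ((cT i ^^^ cT j) &&& (cT x ^^^ cT y) ≠ 0 ∨ (cF i ^^^ cF j) &&& (cF x ^^^ cF y) ≠ 0)))) := by
  decide +kernel

lemma tab_eq : (tab 16 RF 0 16).map (List.map tr) = TAB := by decide +kernel

lemma seq_eq (k : ℕ) : seq TT FF k = goH k TAB 0 0 0 := by
  have a1 : ∀ (c : ℕ → ℕ) x y z w, XT c x y z w → XT c z w x y :=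
    fun c x y z w ⟨e, a, b⟩ => ⟨e, b, a⟩
  have a2 : ∀ (c : ℕ → ℕ) x y z w m, XT c x y z w → XT c x m z w ∨ XT c y m z w := by
    rintro c x y z w m ⟨e, a, b⟩
    by_cases h : (c x).testBit e = (c m).testBit e
    · exact Or.inr ⟨e, by rw [← h]; exact a.symm, b⟩
    · exact Or.inl ⟨e, h, b⟩
  have a3 : ∀ (c : ℕ → ℕ) x z w, ¬ XT c x x z w := fun c x z w ⟨e, a, _⟩ => a rfl
  rw [← tab_eq, ← count' k (by norm_num) XX RF
    (fun x y z w h => h.imp (a1 _ _ _ _ _) (a1 _ _ _ _ _))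
    (fun x y z w m h => h.elim (fun h => (a2 _ _ _ _ _ m h).imp Or.inl Or.inl)
      (fun h => (a2 _ _ _ _ _ m h).imp Or.inr Or.inr))
    (fun x z w h => h.elim (a3 _ _ _ _) (a3 _ _ _ _))
    (fun i hi j hj x hx y hy => by rw [hR0 i hi j hj x hx y hy, XX, XT_iff, XT_iff])]
  unfold seq
  congr 1
  ext s
  simp only [Set.mem_setOf_eq, convT, convF]
  constructor
  · rintro ⟨b1, b2, b3, b4⟩
    exact ⟨fun x y z w p q h => h.elim (b1 x y z w p q) (b2 x y z w p q), b3, b4⟩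
  · rintro ⟨b1, b3, b4⟩
    exact ⟨fun x y z w p q h => b1 x y z w p q (Or.inl h),
      fun x y z w p q h => b1 x y z w p q (Or.inr h), b3, b4⟩

theorem result : ∃ (n : ℕ) (T F : PTree n), ¬ Unimodal n (seq T F) ∧ ¬ LogConcave n (seq T F) := by
  have e10 : seq TT FF 10 = 1832 := (seq_eq 10).trans k10
  have e11 : seq TT FF 11 = 1817 := (seq_eq 11).trans k11
  have e12 : seq TT FF 12 = 1829 := (seq_eq 12).trans k12
  refine ⟨16, TT, FF, ?_, fun h => ?_⟩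
  · rintro ⟨m, -, -, h1, h2⟩
    by_cases hm : m ≤ 11
    · have := h2 11 hm (by norm_num)
      rw [e11, e12] at this; omega
    · have := h1 10 (by norm_num) (by omega)
      rw [e10, e11] at this; omega
  · have := h 11 (by norm_num) (by norm_num)
    rw [e10, e11, e12] at this
    norm_num at this

end Pool.Agent.Results.MP_8b9f13_co.NotUnimodal
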